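import Pool.Agent.Q193.UHF.Split

/-!
# The embedding criterion for infinitely many factors
-/

set_option autoImplicit false

open Finset Cardinal

universe u

namespace Pool.Agent.Q193.UHF

open Pool.Agent.Helper741.UHF

variable {J K E C : Type u} [CStarAlgebra E] [CStarAlgebra C] {n : J → ℕ} {N : ℕ}

theorem card_le_of_embeds (hn : ∀ j, 0 < n j) (hN : 0 < N) [Infinite K]
    (hE : IsMatrixTensor n E) (hC : IsMatrixTensor (fun _ : K => N) C)
    (hφ : EmbedsUnitally C E) (p : ℕ) (hp : p.Prime) (hpN : p ∣ N) : #K ≤ #{j | p ∣ n j} := by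
  obtain ⟨hEn, ι, hι, hιg⟩ := hE
  obtain ⟨_, κ, hκ, _⟩ := hC
  obtain ⟨φ, _⟩ := hφ
  have h := musys_unitsOf ι hn hι
  have hgen := adjoin_unitsOf ι hιg
  obtain ⟨w, hw, -⟩ := split_sys (musys_unitsOf κ (fun _ => hN) hκ)
  have hmem : p ∈ N.primeFactorsList := (Nat.mem_primeFactorsList hN.ne').mpr ⟨hp, hpN⟩
  obtain ⟨i, hi⟩ := List.mem_iff_get.mp hmem
  have h1 := hw.restrict (fun k : K => (⟨k, i⟩ : PF (fun _ : K => N)))
    (fun k k' hk => congrArg Sigma.fst hk)
  have h2 : (fun k : K => pz (fun _ : K => N) ⟨k, i⟩) = fun _ => p := by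
    funext k
    exact hi
  rw [h2] at h1
  have : Fact p.Prime := ⟨hp⟩
  exact mk_leG h hgen p (h1.map φ)

theorem embeds_of_card (hn : ∀ j, 0 < n j) (hN : 0 < N) [Infinite K]
    (hE : IsMatrixTensor n E) (hC : IsMatrixTensor (fun _ : K => N) C)
    (hle : ∀ p : ℕ, p.Prime → p ∣ N → #K ≤ #{j | p ∣ n j}) : EmbedsUnitally C E := by
  classical
  obtain ⟨hEn, ι, hι, _⟩ := hE
  obtain ⟨hCn, κ, hκ, hκg⟩ := hC
  obtain ⟨wC, hwC, hgC⟩ := split_sys (musys_unitsOf κ (fun _ => hN) hκ)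
  obtain ⟨wE, hwE, -⟩ := split_sys (musys_unitsOf ι hn hι)
  have hcard : ∀ p : ℕ, p.Prime → p ∣ N →
      #{x : PF (fun _ : K => N) | pz (fun _ : K => N) x = p} ≤ #{y : PF n | pz n y = p} := by
    intro p hp hpN
    have h1 : #{x : PF (fun _ : K => N) | pz (fun _ : K => N) x = p} ≤ #K := by
      refine (mk_subtype_le _).trans ?_
      rw [mk_sigma]
      simp only [mk_fin, sum_const, lift_natCast, lift_uzero]
      exact mul_le_of_le (aleph0_le_mk K) le_rfl (natCast_lt_aleph0.le.trans (aleph0_le_mk K))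
    refine h1.trans ((hle p hp hpN).trans ?_)
    have hex : ∀ j : {j | p ∣ n j}, ∃ i, (n j).primeFactorsList.get i = p := by
      intro j
      exact List.mem_iff_get.mp ((Nat.mem_primeFactorsList (hn j).ne').mpr ⟨hp, j.2⟩)
    choose i hi using hex
    exact mk_le_of_injective (f := fun j : {j | p ∣ n j} =>
      (⟨⟨j.1, i j⟩, hi j⟩ : {y : PF n | pz n y = p})) (fun j j' hjj => by
        have := congrArg (fun y : {y : PF n | pz n y = p} => y.1.1) hjj
        exact Subtype.ext this)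
  have hdvd : ∀ x : PF (fun _ : K => N), pz (fun _ : K => N) x ∣ N := fun x =>
    Nat.dvd_of_mem_primeFactorsList (List.get_mem _ _)
  have hemb : ∀ p : ℕ, p.Prime → p ∣ N →
      Nonempty ({x : PF (fun _ : K => N) | pz (fun _ : K => N) x = p} ↪
        {y : PF n | pz n y = p}) := fun p hp hpN => (Cardinal.le_def _ _).mp (hcard p hp hpN)
  let g : ∀ p : ℕ, p.Prime → p ∣ N →
      ({x : PF (fun _ : K => N) | pz (fun _ : K => N) x = p} ↪ {y : PF n | pz n y = p}) :=
    fun p hp hpN => Classical.choice (hemb p hp hpN)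
  let f : PF (fun _ : K => N) → PF n := fun x =>
    (g (pz _ x) (pz_prime _ x) (hdvd x) ⟨x, rfl⟩).1
  have hfp : ∀ x, pz n (f x) = pz (fun _ : K => N) x := fun x =>
    (g (pz _ x) (pz_prime _ x) (hdvd x) ⟨x, rfl⟩).2
  have hgcast : ∀ (p q : ℕ) (hp : p.Prime) (hpN : p ∣ N) (hq : q.Prime) (hqN : q ∣ N)
      (x : {x : PF (fun _ : K => N) | pz (fun _ : K => N) x = p})
      (y : {x : PF (fun _ : K => N) | pz (fun _ : K => N) x = q}), p = q →
      (g p hp hpN x).1 = (g q hq hqN y).1 → x.1 = y.1 := by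
    intro p q hp hpN hq hqN x y hpq hxy
    subst hpq
    have := (g p hp hpN).injective (Subtype.ext hxy)
    rw [this]
  have hinj : Function.Injective f := by
    intro x y hxy
    have h1 : pz (fun _ : K => N) x = pz (fun _ : K => N) y := by rw [← hfp x, ← hfp y, hxy]
    exact hgcast _ _ (pz_prime _ x) (hdvd x) (pz_prime _ y) (hdvd y) ⟨x, rfl⟩ ⟨y, rfl⟩ h1 hxy
  have h'' := hwE.restrict f hinj
  have e1 : (fun x => pz n (f x)) = pz (fun _ : K => N) := funext hfp
  rw [e1] at h''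
  have hgen : (Algebra.adjoin ℂ {x | ∃ j a b, x = wC j a b}).topologicalClosure = ⊤ := by
    have h1 := adjoin_unitsOf κ hκg
    rw [eq_top_iff, ← h1]
    refine Subalgebra.topologicalClosure_minimal ?_ (Subalgebra.isClosed_topologicalClosure _)
    refine le_trans ?_ (Subalgebra.le_topologicalClosure _)
    refine Algebra.adjoin_le ?_
    rintro x ⟨j, a, b, rfl⟩
    exact hgC j a b
  obtain ⟨ψ, hψ, _⟩ := exists_embedding hwC h'' hgen
  exact ⟨ψ, hψ⟩

end Pool.Agent.Q193.UHF
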