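import Pool.Agent.Q193.UHF.Inf

/-!
# The case of finitely many factors divisible by `p`
-/

set_option autoImplicit false

open Finset Cardinal

universe u

namespace Pool.Agent.Q193.UHF

open Pool.Agent.Helper741.UHF

/-- a system of `N × N` matrix units -/
structure MU {E : Type*} [CStarAlgebra E] (N : ℕ) (u : ℕ → ℕ → E) : Prop where
  pos : 0 < N
  zero_left : ∀ a b, N ≤ a → u a b = 0
  mul_same : ∀ a b c, b < N → u a b * u b c = u a c
  mul_ne : ∀ a b c d, b ≠ c → u a b * u c d = 0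
  star_e : ∀ a b, star (u a b) = u b a
  one : ∑ a ∈ range N, u a a = 1

variable {E : Type*} [CStarAlgebra E]

theorem MU.of_sys {J : Type*} {n : J → ℕ} {e : J → ℕ → ℕ → E} (h : MUSys n e) (j : J) :
    MU (n j) (e j) :=
  ⟨h.pos j, h.zero_left j, h.mul_same j, h.mul_ne j, h.star_e j, h.one j⟩

/-- the product of two commuting systems -/
def pr (N₂ : ℕ) (u v : ℕ → ℕ → E) (a b : ℕ) : E := u (a / N₂) (b / N₂) * v (a % N₂) (b % N₂)

theorem MU.prod {N₁ N₂ : ℕ} {u v : ℕ → ℕ → E} (hu : MU N₁ u) (hv : MU N₂ v)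
    (hc : ∀ a b c d, Commute (u a b) (v c d)) : MU (N₁ * N₂) (pr N₂ u v) := by
  have hre : ∀ a b c d, pr N₂ u v a b * pr N₂ u v c d =
      (u (a / N₂) (b / N₂) * u (c / N₂) (d / N₂)) * (v (a % N₂) (b % N₂) * v (c % N₂) (d % N₂)) := by
    intro a b c d
    unfold pr
    have := (hc (c / N₂) (d / N₂) (a % N₂) (b % N₂)).eq
    calc _ = u (a / N₂) (b / N₂) * (v (a % N₂) (b % N₂) * u (c / N₂) (d / N₂)) *
        v (c % N₂) (d % N₂) := by simp only [mul_assoc]
      _ = _ := by rw [← this]; simp only [mul_assoc]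
  refine ⟨Nat.mul_pos hu.pos hv.pos, fun a b ha => ?_, fun a b c hb => ?_,
    fun a b c d hbc => ?_, fun a b => ?_, ?_⟩
  · unfold pr
    rw [hu.zero_left _ _ ((Nat.le_div_iff_mul_le hv.pos).mpr ha), zero_mul]
  · rw [hre, hu.mul_same _ _ _ (Nat.div_lt_of_lt_mul (by rwa [mul_comm] at hb)),
      hv.mul_same _ _ _ (Nat.mod_lt _ hv.pos)]
    rfl
  · rw [hre]
    by_cases h1 : b / N₂ = c / N₂
    · have h2 : b % N₂ ≠ c % N₂ := by
        intro h2
        apply hbc
        rw [← Nat.div_add_mod b N₂, ← Nat.div_add_mod c N₂, h1, h2]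
      rw [hv.mul_ne _ _ _ _ h2, mul_zero]
    · rw [hu.mul_ne _ _ _ _ h1, zero_mul]
  · unfold pr
    rw [star_mul, hu.star_e, hv.star_e]
    exact (hc _ _ _ _).eq.symm
  · have : ∑ a ∈ range (N₁ * N₂), pr N₂ u v a a =
        ∑ x ∈ range N₁ ×ˢ range N₂, u x.1 x.1 * v x.2 x.2 := by
      refine Finset.sum_nbij' (fun a => (a / N₂, a % N₂)) (fun x => N₂ * x.1 + x.2) ?_ ?_ ?_ ?_ ?_
      · intro a ha
        rw [mem_range] at ha
        rw [mem_product, mem_range, mem_range]
        exact ⟨Nat.div_lt_of_lt_mul (by rwa [mul_comm] at ha), Nat.mod_lt _ hv.pos⟩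
      · rintro ⟨x, y⟩ hx
        rw [mem_product, mem_range, mem_range] at hx
        obtain ⟨h1, h2⟩ := hx
        rw [mem_range]
        calc N₂ * x + y < N₂ * x + N₂ := by omega
          _ = N₂ * (x + 1) := by ring
          _ ≤ N₂ * N₁ := Nat.mul_le_mul_left _ h1
          _ = N₁ * N₂ := mul_comm _ _
      · intro a _
        exact Nat.div_add_mod a N₂
      · rintro ⟨x, y⟩ hx
        rw [mem_product, mem_range, mem_range] at hx
        obtain ⟨h1, h2⟩ := hx
        dsimp only at h1 h2 ⊢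
        rw [Nat.mul_add_div hv.pos, Nat.mul_add_mod, Nat.div_eq_of_lt h2, Nat.mod_eq_of_lt h2,
          add_zero]
      · intro a _
        rfl
    rw [this, Finset.sum_product]
    have h1 : ∀ x ∈ range N₁, ∑ y ∈ range N₂, u x x * v y y = u x x := by
      intro x _
      rw [← Finset.mul_sum, hv.one, mul_one]
    rw [Finset.sum_congr rfl h1, hu.one]

/-- the iterated product of commuting systems of size `p` -/
def ipr (p : ℕ) (w : ℕ → ℕ → ℕ → E) : ℕ → ℕ → ℕ → E
  | 0 => fun a b => if a = 0 ∧ b = 0 then 1 else 0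
  | M + 1 => pr p (ipr p w M) (w M)

theorem ipr_mu {p : ℕ} {w : ℕ → ℕ → ℕ → E} {M : ℕ} (hw : ∀ i < M, MU p (w i))
    (hc : ∀ i < M, ∀ j < M, i ≠ j → ∀ a b c d, Commute (w i a b) (w j c d)) :
    MU (p ^ M) (ipr p w M) ∧ ∀ y : E, (∀ i < M, ∀ a b, Commute (w i a b) y) →
      ∀ a b, Commute (ipr p w M a b) y := by
  induction M with
  | zero =>
    refine ⟨⟨by norm_num, ?_, ?_, ?_, ?_, ?_⟩, ?_⟩
    · intro a b ha
      simp only [pow_zero] at ha
      simp only [ipr]
      rw [if_neg (by omega)]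
    · intro a b c hb
      have : b = 0 := by simpa using hb
      subst this
      simp only [ipr]
      by_cases ha : a = 0 <;> by_cases hc : c = 0 <;> simp [ha, hc]
    · intro a b c d hbc
      simp only [ipr]
      by_cases h1 : a = 0 ∧ b = 0
      · by_cases h2 : c = 0 ∧ d = 0
        · exact absurd (h1.2.trans h2.1.symm) hbc
        · rw [if_neg h2, mul_zero]
      · rw [if_neg h1, zero_mul]
    · intro a b
      simp only [ipr]
      by_cases h1 : a = 0 ∧ b = 0
      · rw [if_pos h1, if_pos h1.symm, star_one]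
      · rw [if_neg h1, if_neg (fun h => h1 h.symm), star_zero]
    · simp [ipr]
    · intro y _ a b
      simp only [ipr]
      split_ifs
      · exact Commute.one_left _
      · exact Commute.zero_left _
  | succ M ih =>
    obtain ⟨h1, h2⟩ := ih (fun i hi => hw i (by omega))
      (fun i hi j hj hij => hc i (by omega) j (by omega) hij)
    have h3 : ∀ a b c d, Commute (ipr p w M a b) (w M c d) := by
      intro a b c d
      exact h2 _ (fun i hi a b => hc i (by omega) M (by omega) (by omega) a b c d) a b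
    refine ⟨?_, ?_⟩
    · rw [pow_succ]
      exact h1.prod (hw M (by omega)) h3
    · intro y hy a b
      exact (h2 y (fun i hi a b => hy i (by omega) a b) _ _).mul_left (hy M (by omega) _ _)

theorem norm_mu_le {N : ℕ} {u : ℕ → ℕ → E} (hu : MU N u) (a b : ℕ) : ‖u a b‖ ≤ 1 := by
  have h0 : ∀ b, ‖u b b‖ ≤ 1 := by
    intro b
    by_cases hb : b < N
    · have hp : IsStarProjection (u b b) := ⟨hu.mul_same b b b hb, hu.star_e b b⟩
      exact norm_proj_le_one hp
    · rw [hu.zero_left b b (not_lt.mp hb), norm_zero]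
      norm_num
  have h1 : ‖u a b‖ * ‖u a b‖ ≤ 1 := by
    rw [← CStarRing.norm_star_mul_self, hu.star_e]
    by_cases ha : a < N
    · rw [hu.mul_same b a b ha]
      exact h0 b
    · rw [hu.zero_left a b (not_lt.mp ha), mul_zero, norm_zero]
      norm_num
  nlinarith [norm_nonneg (u a b)]

section main

variable {J E : Type u} [CStarAlgebra E] {n : J → ℕ} {e : J → ℕ → ℕ → E}

theorem exists_dvdG [Nontrivial E] (h : MUSys n e)
    (hgen : (Algebra.adjoin ℂ {x | ∃ j a b, x = e j a b}).topologicalClosure = ⊤)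
    {N : ℕ} {u : ℕ → ℕ → E} (hu : MU N u) : ∃ T : Finset J, N ∣ ∏ j ∈ T, n j := by
  classical
  have hN := hu.pos
  set η : ℝ := 1 / ((N + 4) * (40 * N)) with hη
  have hNR : (1 : ℝ) ≤ N := by exact_mod_cast hN
  have hden : (1 : ℝ) ≤ (N + 4) * (40 * N) := by nlinarith
  have hη0 : 0 < η := by positivity
  have hη1 : η ≤ 1 := by
    rw [hη, div_le_one (by positivity)]
    exact hden
  have hδ : (N + 4) * η * (40 * N) ≤ 1 := by
    have : (N + 4) * η * (40 * N) = 1 := by
      rw [hη]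
      field_simp
    exact this.le
  have hx : ∀ g : Fin N × Fin N, ∃ T : Finset J, ∃ w ∈ D e (T : Set J), ‖w - u g.1 g.2‖ ≤ η := by
    intro g
    obtain ⟨T, w, hw, hwu⟩ := dense_D hgen (u g.1 g.2) hη0
    exact ⟨T, w, hw, by rw [norm_sub_rev]; exact hwu.le⟩
  choose Tx x hxD hxu using hx
  set T : Finset J := Finset.univ.biUnion Tx with hT
  set ℓ := T.toList with hℓ
  let C : StarSubalgebra ℂ E := StarSubalgebra.centralizer ℂ Set.univ
  have hCmem : ∀ z, z ∈ C ↔ ∀ g, g * z = z * g := by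
    intro z
    rw [StarSubalgebra.mem_centralizer_iff]
    exact ⟨fun hz g => (hz g trivial).1, fun hz g _ => ⟨hz g, hz _⟩⟩
  have hC : IsClosed (C : Set E) := Set.isClosed_centralizer _
  have hcomm : ∀ x ∈ C, ∀ y ∈ C, x * y = y * x := fun x _ y hy => (hCmem y).mp hy x
  have hD0 : ∀ w ∈ D e (∅ : Set J), w ∈ C := by
    intro w hw
    refine D_induction (e := e) (N := ∅) (p := fun w => w ∈ C) ?_ ?_ ?_ ?_ hw
    · intro j hj
      exact absurd hj (Set.notMem_empty j)
    · intro c
      exact algebraMap_mem C c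
    · exact fun x y hx hy => add_mem hx hy
    · exact fun x y hx hy => mul_mem hx hy
  have hsl : ∀ w ∈ D e (T : Set J), w ∈ sliceAlg h ℓ C := by
    intro w hw f hf g hg
    refine hD0 _ (Sl_mem_D h ℓ (Finset.nodup_toList T) (fun j _ => Set.notMem_empty j) ?_
      f g hf hg)
    refine D_mono ?_ hw
    intro j hj
    exact Or.inr (by simpa [hℓ] using hj)
  have hxS : ∀ g, x g ∈ sliceAlg h ℓ C := fun g => hsl _ (D_mono (by
    intro j hj
    rw [hT]
    simp only [coe_biUnion, coe_univ, Set.mem_univ, Set.iUnion_true, Set.mem_iUnion]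
    exact ⟨g, hj⟩) (hxD g))
  let y : ℕ → ℕ → E := fun a b => if hh : a < N ∧ b < N then x (⟨a, hh.1⟩, ⟨b, hh.2⟩) else 0
  have hy : ∀ a (ha : a < N) b (hb : b < N), y a b = x (⟨a, ha⟩, ⟨b, hb⟩) := fun a ha b hb =>
    dif_pos ⟨ha, hb⟩
  let z : ℕ → ℕ → E := fun a b => (1 / 2 : ℂ) • (y a b + star (y b a))
  have hz : ∀ a < N, ∀ b < N, ‖z a b - u a b‖ ≤ η := by
    intro a ha b hb
    have h1 : z a b - u a b = (1 / 2 : ℂ) • ((y a b - u a b) + star (y b a - u b a)) := by
      rw [star_sub, hu.star_e]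
      have : u a b = (1 / 2 : ℂ) • (u a b + u a b) := by
        rw [← two_smul ℂ (u a b), smul_smul]
        norm_num
      nth_rewrite 1 [this]
      change (1 / 2 : ℂ) • (y a b + star (y b a)) - _ = _
      rw [← smul_sub]
      congr 1
      abel
    rw [h1, norm_smul]
    have e1 := hxu (⟨a, ha⟩, ⟨b, hb⟩)
    have e2 := hxu (⟨b, hb⟩, ⟨a, ha⟩)
    rw [← hy a ha b hb] at e1
    rw [← hy b hb a ha] at e2
    have h2 : ‖(y a b - u a b) + star (y b a - u b a)‖ ≤ η + η :=
      (norm_add_le _ _).trans (add_le_add e1 (by rwa [norm_star]))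
    have h3 : ‖(1 / 2 : ℂ)‖ = 1 / 2 := by norm_num
    rw [h3]
    linarith
  have hAMU : AMU N ((N + 4) * η) z :=
    amu_of_close hη1 (fun a _ b _ => norm_mu_le hu a b)
      (fun a _ b hb c _ => hu.mul_same a b c hb) (fun a _ b _ c _ d _ hbc => hu.mul_ne a b c d hbc)
      hu.one (fun a _ b _ => by
        change star ((1 / 2 : ℂ) • (y a b + star (y b a))) = (1 / 2 : ℂ) • (y b a + star (y a b))
        rw [star_smul, star_add, star_star, add_comm]
        congr 1
        simp) hz hη0.le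
  have hd := transferMU h ℓ C hC hcomm hN (by positivity) hδ z (fun a ha b hb =>
    SMulMemClass.smul_mem _ (add_mem (by rw [hy a ha b hb]; exact hxS _)
      (star_mem (by rw [hy b hb a ha]; exact hxS _)))) hAMU
  have hprod : (ℓ.map n).prod = ∏ j ∈ T, n j := by
    rw [hℓ, Finset.prod_map_toList]
  exact ⟨T, hprod ▸ hd⟩

theorem padic_prodG (p : ℕ) [Fact p.Prime] {J : Type*} {n : J → ℕ} (T : Finset J)
    (hT : ∀ j ∈ T, n j ≠ 0) :
    padicValNat p (∏ j ∈ T, n j) = ∑ j ∈ T, padicValNat p (n j) := by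
  classical
  induction T using Finset.induction_on with
  | empty => simp
  | insert a T ha ih =>
    rw [Finset.prod_insert ha, Finset.sum_insert ha, padicValNat.mul
      (hT a (Finset.mem_insert_self _ _))
      (Finset.prod_ne_zero_iff.mpr fun j hj => hT j (Finset.mem_insert_of_mem hj)),
      ih fun j hj => hT j (Finset.mem_insert_of_mem hj)]

theorem not_infinite_of_finiteG [Nontrivial E] (h : MUSys n e)
    (hgen : (Algebra.adjoin ℂ {x | ∃ j a b, x = e j a b}).topologicalClosure = ⊤)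
    (p : ℕ) [Fact p.Prime]
    {Λ : Type*} [Infinite Λ] {w : Λ → ℕ → ℕ → E} (hp : MUSys (fun _ : Λ => p) w)
    (hP : {j | p ∣ n j}.Finite) : False := by
  classical
  set W := ∑ j ∈ hP.toFinset, padicValNat p (n j) with hW
  let ι : ℕ ↪ Λ := Infinite.natEmbedding Λ
  have hmu := (ipr_mu (p := p) (w := fun i => w (ι i)) (M := W + 1)
    (fun i _ => MU.of_sys hp (ι i))
    (fun i _ j _ hij a b c d => hp.comm _ _ (fun hh => hij (ι.injective hh)) a b c d)).1
  obtain ⟨T, hT⟩ := exists_dvdG h hgen hmu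
  have hne : ∏ j ∈ T, n j ≠ 0 := Finset.prod_ne_zero_iff.mpr fun j _ => (h.pos j).ne'
  have h1 := (padicValNat_dvd_iff_le (p := p) hne).mp hT
  rw [padic_prodG p T fun j _ => (h.pos j).ne'] at h1
  have : ∑ j ∈ T, padicValNat p (n j) ≤ W := by
    rw [← Finset.sum_filter_add_sum_filter_not T (fun j => p ∣ n j)]
    have h0 : ∑ j ∈ T.filter (fun j => ¬ p ∣ n j), padicValNat p (n j) = 0 := by
      refine Finset.sum_eq_zero fun j hj => ?_
      exact padicValNat.eq_zero_of_not_dvd (Finset.mem_filter.mp hj).2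
    rw [h0, add_zero]
    refine Finset.sum_le_sum_of_subset ?_
    intro j hj
    simpa using (Finset.mem_filter.mp hj).2
  omega

end main

end Pool.Agent.Q193.UHF
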