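import Pool.Agent.Q193.UHF.Num

/-!
# The core estimate for arbitrary matrix sizes
-/

set_option autoImplicit false

open Finset Cardinal Filter Topology

universe u

namespace Pool.Agent.Q193.UHF

open Pool.Agent.Helper741.UHF

variable {J E : Type u} [CStarAlgebra E] {n : J → ℕ} {e : J → ℕ → ℕ → E}

theorem transferMU [Nontrivial E] (h : MUSys n e) (ℓ : List J) (C : StarSubalgebra ℂ E)
    (hC : IsClosed (C : Set E)) (hcomm : ∀ x ∈ C, ∀ y ∈ C, x * y = y * x) {N : ℕ} (hN : 0 < N)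
    {δ : ℝ} (hδ0 : 0 ≤ δ) (hδ : δ * (40 * N) ≤ 1)
    (x : ℕ → ℕ → E) (hx : ∀ a < N, ∀ b < N, x a b ∈ sliceAlg h ℓ C)
    (hA : AMU N δ x) : N ∣ (ℓ.map n).prod := by
  classical
  obtain ⟨χ⟩ := exists_character C hC hcomm
  have hn := norm_opRep_le h ℓ C hC χ
  let X : ℕ → ℕ → sliceAlg h ℓ C := fun a b =>
    if hh : a < N ∧ b < N then ⟨x a b, hx a hh.1 b hh.2⟩ else 0
  have hX : ∀ a < N, ∀ b < N, ((X a b : sliceAlg h ℓ C) : E) = x a b := by
    intro a ha b hb
    change ((if hh : a < N ∧ b < N then (⟨x a b, hx a hh.1 b hh.2⟩ : sliceAlg h ℓ C) else 0 :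
      sliceAlg h ℓ C) : E) = _
    rw [dif_pos ⟨ha, hb⟩]
  have key : ∀ (z : sliceAlg h ℓ C) (c : ℝ), ‖(z : E)‖ ≤ c → ‖opRep h ℓ C χ z‖ ≤ c :=
    fun z c hz => (hn z).trans hz
  have hAP : AMU N δ (fun a b => opRep h ℓ C χ (X a b)) := by
    refine ⟨fun a ha b hb => ?_, fun a ha b hb => ?_, fun a ha b hb c hc => ?_,
      fun a ha b hb c hc d hd hbc => ?_, ?_⟩
    · rw [← map_star]
      congr 1
      apply Subtype.ext
      change star ((X a b : sliceAlg h ℓ C) : E) = _
      rw [hX a ha b hb, hX b hb a ha, hA.sa a ha b hb]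
    · exact key _ _ (by rw [hX a ha b hb]; exact hA.norm a ha b hb)
    · rw [← map_mul, ← map_sub]
      refine key _ _ ?_
      change ‖((X a b : sliceAlg h ℓ C) : E) * ((X b c : sliceAlg h ℓ C) : E) -
        ((X a c : sliceAlg h ℓ C) : E)‖ ≤ δ
      rw [hX a ha b hb, hX b hb c hc, hX a ha c hc]
      exact hA.same a ha b hb c hc
    · rw [← map_mul]
      refine key _ _ ?_
      change ‖((X a b : sliceAlg h ℓ C) : E) * ((X c d : sliceAlg h ℓ C) : E)‖ ≤ δ
      rw [hX a ha b hb, hX c hc d hd]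
      exact hA.ne a ha b hb c hc d hd hbc
    · rw [← map_sum, ← map_one (opRep h ℓ C χ), ← map_sub]
      refine key _ _ ?_
      have : (((∑ a ∈ Finset.range N, X a a - 1 : sliceAlg h ℓ C)) : E) =
          ∑ a ∈ Finset.range N, x a a - 1 := by
        rw [AddSubgroupClass.coe_sub, AddSubmonoidClass.coe_finsetSum]
        congr 1
        exact Finset.sum_congr rfl fun a ha => hX a (Finset.mem_range.mp ha) a
          (Finset.mem_range.mp ha)
      rw [this]
      exact hA.one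
  have := finrank_eq hN hδ0 hδ hAP
  rwa [finrank_euclideanSpace, Fintype.card_coe, card_idx] at this

/-- the limit construction -/
theorem coreG [Nontrivial E] (h : MUSys n e) {c : ℝ} (hc : 0 < c)
    {G : Type} (τ : G → G)
    (L : List J) (rest r : ℕ → List J) (hrest0 : rest 0 = [])
    (hrest : ∀ m, rest (m + 1) = rest m ++ r m)
    (X : G → ℕ → E) (U : G → E) (hUs : ∀ b, star (U b) = U (τ b))
    (hX : ∀ b m, ‖X b m - U b‖ ≤ c * (1 / 2) ^ m)
    (hcX : ∀ b m, ∀ j ∈ r m, ∀ a d, Commute (e j a d) (X b m))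
    (hcomm : ∀ b b' m, ∀ f ∈ idx ((L ++ rest m).map n), ∀ g ∈ idx ((L ++ rest m).map n),
      ∀ f' ∈ idx ((L ++ rest m).map n), ∀ g' ∈ idx ((L ++ rest m).map n),
      ‖Sl n e (L ++ rest m) f g (X b m) * Sl n e (L ++ rest m) f' g' (X b' m) -
        Sl n e (L ++ rest m) f' g' (X b' m) * Sl n e (L ++ rest m) f g (X b m)‖
        ≤ 6 * (c * (1 / 2) ^ m)) :
    ∃ (Z : G → E) (C : StarSubalgebra ℂ E), IsClosed (C : Set E) ∧
      (∀ x ∈ C, ∀ y ∈ C, x * y = y * x) ∧ (∀ b, ‖Z b - U b‖ ≤ 5 * c) ∧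
      (∀ b, star (Z b) = Z (τ b)) ∧ ∀ b, Z b ∈ sliceAlg h L C := by
  classical
  set Xt : G → ℕ → E := fun b m => Sl n e (rest m) (z0 (rest m)) (z0 (rest m)) (X b m) with hXt
  have hstep : ∀ b m, dist (Xt b m) (Xt b (m + 1)) ≤ 2 * c * (1 / 2) ^ m := by
    intro b m
    have h1 : Xt b (m + 1) = Sl n e (rest m) (z0 (rest m)) (z0 (rest m))
        (Sl n e (r m) (z0 (r m)) (z0 (r m)) (X b (m + 1))) := by
      simp only [hXt]
      rw [hrest m, z0_append, Sl_append _ _ _ _ _ _ (z0_length _) (z0_length _)]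
    have h2 : Xt b m = Sl n e (rest m) (z0 (rest m)) (z0 (rest m))
        (Sl n e (r m) (z0 (r m)) (z0 (r m)) (X b m)) := by
      rw [Sl_of_commute h (r m) _ _ (z0_mem h _) (z0_mem h _) _ (hcX b m), if_pos rfl]
    rw [dist_eq_norm, h1, h2, ← map_sub, ← map_sub]
    refine (norm_Sl_le' h _ _ _ _).trans ((norm_Sl_le' h _ _ _ _).trans ?_)
    have h3 : X b m - X b (m + 1) = (X b m - U b) - (X b (m + 1) - U b) := by abel
    rw [h3]
    calc _ ≤ ‖X b m - U b‖ + ‖X b (m + 1) - U b‖ := norm_sub_le _ _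
      _ ≤ c * (1 / 2) ^ m + c * (1 / 2) ^ (m + 1) := add_le_add (hX b m) (hX b (m + 1))
      _ ≤ 2 * c * (1 / 2) ^ m := by
          rw [pow_succ]
          have : (0 : ℝ) ≤ c * (1 / 2) ^ m := by positivity
          linarith
  have hZ : ∀ b, ∃ z, Tendsto (Xt b) atTop (𝓝 z) := fun b =>
    cauchySeq_tendsto_of_complete
      (cauchySeq_of_le_geometric (1 / 2) (2 * c) (by norm_num) (hstep b))
  choose Z hZ using hZ
  have hZU : ∀ b, ‖Z b - U b‖ ≤ 5 * c := by
    intro b
    have h1 := dist_le_of_le_geometric_of_tendsto₀ (1 / 2) (2 * c) (by norm_num) (hstep b) (hZ b)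
    have h2 : Xt b 0 = X b 0 := by
      simp only [hXt]
      rw [hrest0]
      simp
    rw [h2, dist_eq_norm] at h1
    have h3 := hX b 0
    rw [pow_zero, mul_one] at h3
    have h4 : Z b - U b = -(X b 0 - Z b) + (X b 0 - U b) := by abel
    rw [h4]
    refine (norm_add_le _ _).trans ?_
    rw [norm_neg]
    norm_num at h1
    linarith
  have hgeo : Tendsto (fun m : ℕ => 6 * (c * (1 / 2 : ℝ) ^ m)) atTop (𝓝 0) := by
    have := (tendsto_pow_atTop_nhds_zero_of_lt_one (r := (1 / 2 : ℝ)) (by norm_num)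
      (by norm_num)).const_mul c
    simpa using this.const_mul 6
  have hZs : ∀ b, star (Z b) = Z (τ b) := by
    intro b
    have h1 : Tendsto (fun m => star (Xt b m) - Xt (τ b) m) atTop (𝓝 (star (Z b) - Z (τ b))) :=
      (hZ b).star.sub (hZ (τ b))
    have h2 : Tendsto (fun m => star (Xt b m) - Xt (τ b) m) atTop (𝓝 0) := by
      refine squeeze_zero_norm (fun m => ?_) hgeo
      simp only [hXt]
      rw [Sl_star h, ← map_sub]
      refine (norm_Sl_le' h _ _ _ _).trans ?_
      have h3 : star (X b m) - X (τ b) m = star (X b m - U b) - (X (τ b) m - U (τ b)) := by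
        rw [star_sub, hUs]
        abel
      rw [h3]
      refine (norm_sub_le _ _).trans ?_
      rw [norm_star]
      have h4 := hX b m
      have h5 := hX (τ b) m
      have h0 : (0 : ℝ) ≤ c * (1 / 2) ^ m := by positivity
      linarith
    exact sub_eq_zero.mp (tendsto_nhds_unique h1 h2)
  have hZc : ∀ b b', ∀ f ∈ idx (L.map n), ∀ g ∈ idx (L.map n), ∀ f' ∈ idx (L.map n),
      ∀ g' ∈ idx (L.map n), Sl n e L f g (Z b) * Sl n e L f' g' (Z b') =
        Sl n e L f' g' (Z b') * Sl n e L f g (Z b) := by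
    intro b b' f hf g hg f' hf' g' hg'
    have t1 : Tendsto (fun m => Sl n e L f g (Xt b m)) atTop (𝓝 (Sl n e L f g (Z b))) :=
      ((continuous_Sl h L f g).tendsto _).comp (hZ b)
    have t2 : Tendsto (fun m => Sl n e L f' g' (Xt b' m)) atTop
        (𝓝 (Sl n e L f' g' (Z b'))) := ((continuous_Sl h L f' g').tendsto _).comp (hZ b')
    have t3 := (t1.mul t2).sub (t2.mul t1)
    have t4 : Tendsto (fun m => Sl n e L f g (Xt b m) * Sl n e L f' g' (Xt b' m) -
        Sl n e L f' g' (Xt b' m) * Sl n e L f g (Xt b m)) atTop (𝓝 0) := by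
      refine squeeze_zero_norm (fun m => ?_) hgeo
      have hl : ∀ k ∈ idx (L.map n), k.length = L.length := fun k hk => by
        simpa using length_of_mem_idx hk
      have hm : ∀ k ∈ idx (L.map n), k ++ z0 (rest m) ∈ idx ((L ++ rest m).map n) := by
        intro k hk
        rw [List.map_append]
        exact append_mem_idx hk (z0_mem h _)
      have := hcomm b b' m (f ++ z0 (rest m)) (hm f hf) (g ++ z0 (rest m)) (hm g hg)
        (f' ++ z0 (rest m)) (hm f' hf') (g' ++ z0 (rest m)) (hm g' hg')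
      rwa [Sl_append _ _ _ _ _ _ (hl f hf) (hl g hg),
        Sl_append _ _ _ _ _ _ (hl f' hf') (hl g' hg')] at this
    exact sub_eq_zero.mp (tendsto_nhds_unique t3 t4)
  let s : Set E := {z | ∃ b, ∃ f ∈ idx (L.map n), ∃ g ∈ idx (L.map n), Sl n e L f g (Z b) = z}
  have hs : ∀ z ∈ s, ∀ w ∈ s, z * w = w * z := by
    rintro _ ⟨b, f, hf, g, hg, rfl⟩ _ ⟨b', f', hf', g', hg', rfl⟩
    exact hZc b b' f hf g hg f' hf' g' hg'
  have hss : ∀ z ∈ s, star z ∈ s := by
    rintro _ ⟨b, f, hf, g, hg, rfl⟩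
    refine ⟨τ b, g, hg, f, hf, ?_⟩
    rw [Sl_star h, hZs b]
  have hsu : s ∪ star s = s := by
    refine Set.union_eq_self_of_subset_right ?_
    intro z hz
    have := hss _ hz
    rwa [star_star] at this
  let C : StarSubalgebra ℂ E := StarSubalgebra.centralizer ℂ (StarSubalgebra.centralizer ℂ s : Set E)
  have hCc : (C : Set E) = s.centralizer.centralizer := by
    have := StarSubalgebra.coe_centralizer_centralizer ℂ s
    rw [hsu] at this
    exact this
  have hC : IsClosed (C : Set E) := by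
    rw [hCc]
    exact Set.isClosed_centralizer _
  have hCcomm : ∀ x ∈ C, ∀ y ∈ C, x * y = y * x := by
    intro x hx y hy
    have hx' : x ∈ s.centralizer.centralizer := hCc ▸ hx
    have hy' : y ∈ s.centralizer.centralizer := hCc ▸ hy
    exact Set.centralizer_centralizer_comm_of_comm hs x hx' y hy'
  have hsC : ∀ z ∈ s, z ∈ C := by
    intro z hz
    have : z ∈ (C : Set E) := by
      rw [hCc]
      exact Set.subset_centralizer_centralizer hz
    exact this
  exact ⟨Z, C, hC, hCcomm, hZU, hZs, fun b f hf g hg => hsC _ ⟨b, f, hf, g, hg, rfl⟩⟩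

/-- elements close to exact matrix units are approximate matrix units -/
theorem amu_of_close {N : ℕ} {u z : ℕ → ℕ → E} {η : ℝ} (hη1 : η ≤ 1)
    (hu : ∀ a < N, ∀ b < N, ‖u a b‖ ≤ 1)
    (hsame : ∀ a < N, ∀ b < N, ∀ c < N, u a b * u b c = u a c)
    (hne : ∀ a < N, ∀ b < N, ∀ c < N, ∀ d < N, b ≠ c → u a b * u c d = 0)
    (hone : ∑ a ∈ Finset.range N, u a a = 1)
    (hsa : ∀ a < N, ∀ b < N, star (z a b) = z b a)
    (hz : ∀ a < N, ∀ b < N, ‖z a b - u a b‖ ≤ η) (hη0 : 0 ≤ η) :
    AMU N ((N + 4) * η) z := by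
  refine ⟨hsa, fun a ha b hb => ?_, fun a ha b hb c hc => ?_,
    fun a ha b hb c hc d hd hbc => ?_, ?_⟩
  · have : z a b = (z a b - u a b) + u a b := by abel
    rw [this]
    refine (norm_add_le _ _).trans ?_
    have := hz a ha b hb
    have := hu a ha b hb
    linarith
  · have h1 := norm_prod_sub_le hη1 (hu a ha b hb) (hu b hb c hc) (hz a ha b hb) (hz b hb c hc)
    rw [hsame a ha b hb c hc] at h1
    have e1 : z a b * z b c - z a c = (z a b * z b c - u a c) - (z a c - u a c) := by abel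
    rw [e1]
    refine (norm_sub_le _ _).trans ?_
    have := hz a ha c hc
    have hN : (0 : ℝ) ≤ N * η := by positivity
    linarith
  · have h1 := norm_prod_sub_le hη1 (hu a ha b hb) (hu c hc d hd) (hz a ha b hb) (hz c hc d hd)
    rw [hne a ha b hb c hc d hd hbc, sub_zero] at h1
    have hN : (0 : ℝ) ≤ N * η := by positivity
    linarith
  · rw [← hone, ← Finset.sum_sub_distrib]
    refine (norm_sum_le_of_le _ fun a ha =>
      hz a (Finset.mem_range.mp ha) a (Finset.mem_range.mp ha)).trans ?_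
    rw [Finset.sum_const, Finset.card_range, nsmul_eq_mul]
    linarith

end Pool.Agent.Q193.UHF
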