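import Pool.Agent.Q193.UHF.Fin

/-!
# Infinitely many commuting copies of `M_p` need as many factors divisible by `p`
-/

set_option autoImplicit false

open Finset Cardinal Filter Topology

universe u

namespace Pool.Agent.Q193.UHF

open Pool.Agent.Helper741.UHF

variable {J E : Type u} [CStarAlgebra E] {n : J → ℕ} {e : J → ℕ → ℕ → E}

/-- types -/
abbrev Ty2 (J E : Type u) : Type u := ℕ × List J × List ℕ × List (List E)

/-- types over `N` -/
def Over2 (e : J → ℕ → ℕ → E) (N : Set J) : Set (Ty2 J E) :=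
  {τ | (∀ j ∈ τ.2.1, j ∈ N) ∧ ∀ l ∈ τ.2.2.2, ∀ c ∈ l, c ∈ D e N}

theorem exists_lift {α : Type u} (S : Set α) (l : List (List α)) (h : ∀ k ∈ l, ∀ c ∈ k, c ∈ S) :
    ∃ l' : List (List S), l'.map (List.map Subtype.val) = l := by
  induction l with
  | nil => exact ⟨[], rfl⟩
  | cons k l ih =>
    obtain ⟨l', hl'⟩ := ih fun k' hk' => h k' (List.mem_cons_of_mem _ hk')
    have hk := h k List.mem_cons_self
    lift k to List S using hk
    exact ⟨k :: l', by rw [List.map_cons, hl']⟩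

theorem mk_Over2_le {κ : Cardinal.{u}} (hκ : ℵ₀ ≤ κ) (N : Set J) (hN : #N ≤ κ) :
    #(Over2 e N) ≤ κ := by
  have hD : #(D e N) ≤ κ := mk_D_le.trans (max_le hκ hN)
  let F : (ULift.{u} ℕ × List N × ULift.{u} (List ℕ) × List (List (D e N))) → Ty2 J E :=
    fun p => (p.1.down, p.2.1.map Subtype.val, p.2.2.1.down,
      p.2.2.2.map (List.map Subtype.val))
  have hsub : Over2 e N ⊆ Set.range F := by
    rintro ⟨m, R, ν, cx⟩ ⟨h1, h2⟩
    dsimp only at h1 h2
    lift R to List N using h1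
    obtain ⟨cx', hcx'⟩ := exists_lift (D e N : Set E) cx h2
    exact ⟨(⟨m⟩, R, ⟨ν⟩, cx'), by rw [← hcx']; rfl⟩
  refine (mk_le_mk_of_subset hsub).trans (mk_range_le.trans ?_)
  simp only [mk_prod, lift_id]
  refine mul_le_of_le hκ (by simpa using hκ) ?_
  refine mul_le_of_le hκ (mk_list_le hκ hN) ?_
  refine mul_le_of_le hκ (by simpa using hκ) ?_
  exact mk_list_le hκ (mk_list_le hκ hD)

theorem exists_k_lists (N : ℕ → Set J) (hN : Monotone N) (l : List (List E))
    (hl : ∀ k ∈ l, ∀ c ∈ k, c ∈ D e (⋃ k, N k)) : ∃ m, ∀ k ∈ l, ∀ c ∈ k, c ∈ D e (N m) := by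
  induction l with
  | nil => exact ⟨0, by simp⟩
  | cons a l ih =>
    obtain ⟨k, hk⟩ := ih fun j hj => hl j (List.mem_cons_of_mem _ hj)
    obtain ⟨k', hk'⟩ := exists_k_list N hN a (hl a List.mem_cons_self)
    refine ⟨max k k', fun j hj c hc => ?_⟩
    rcases List.mem_cons.mp hj with rfl | hj
    · exact D_mono (hN (le_max_right _ _)) (hk' c hc)
    · exact D_mono (hN (le_max_left _ _)) (hk j hj c hc)

theorem Over2_finitary (N : ℕ → Set J) (hN : Monotone N) (τ : Ty2 J E)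
    (hτ : τ ∈ Over2 e (⋃ k, N k)) : ∃ k, τ ∈ Over2 e (N k) := by
  obtain ⟨h1, h2⟩ := hτ
  obtain ⟨k1, h1⟩ := exists_k_set N hN _ h1
  obtain ⟨k2, h2⟩ := exists_k_lists N hN _ h2
  exact ⟨max k1 k2, fun j hj => hN (le_max_left _ _) (h1 j hj),
    fun l hl c hc => D_mono (hN (le_max_right _ _)) (h2 l hl c hc)⟩

/-- profiles of a family -/
noncomputable def profs {G : Type} [Fintype G] (n : J → ℕ) (e : J → ℕ → ℕ → E) (ℓ : List J)
    (x : G → E) : List (List E) := (Finset.univ : Finset G).toList.map fun g => prof n e ℓ (x g)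

theorem profs_eq {G : Type} [Fintype G] {ℓ ℓ' : List J} {x x' : G → E}
    (h : profs n e ℓ' x' = profs n e ℓ x) (g : G) : prof n e ℓ' (x' g) = prof n e ℓ (x g) := by
  unfold profs at h
  rw [List.map_inj_left] at h
  exact h g (by simp)

/-- realisation of a type -/
def Real2 {G : Type} [Fintype G] {Λ : Type u} (n : J → ℕ) (e : J → ℕ → ℕ → E) (U : Λ → G → E)
    (ε : ℕ → ℝ) (τ : Ty2 J E) (β : Λ) (t : Set J) : Prop :=
  ∃ ℓ : List J, ℓ.Nodup ∧ {j | j ∈ ℓ} = t ∧ (∀ j ∈ ℓ, j ∉ τ.2.1) ∧ ℓ.map n = τ.2.2.1 ∧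
    ∃ x : G → E, (∀ g, x g ∈ D e ({j | j ∈ τ.2.1} ∪ {j | j ∈ ℓ})) ∧
      (∀ g, ‖x g - U β g‖ ≤ ε τ.1) ∧ profs n e ℓ x = τ.2.2.2

theorem mk_le_of_infiniteG [Nontrivial E] (h : MUSys n e)
    (hgen : (Algebra.adjoin ℂ {x | ∃ j a b, x = e j a b}).topologicalClosure = ⊤)
    (p : ℕ) [hp : Fact p.Prime]
    {Λ : Type u} {w : Λ → ℕ → ℕ → E} (hw : MUSys (fun _ : Λ => p) w)
    (hP : ℵ₀ ≤ #{j | p ∣ n j}) : #Λ ≤ #{j | p ∣ n j} := by
  classical
  by_contra hcon
  push Not at hcon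
  have hp0 : 0 < p := hp.out.pos
  have hpR : (1 : ℝ) ≤ p := by exact_mod_cast hp0
  set c : ℝ := 1 / (5 * ((p + 4) * (40 * p))) with hcdef
  have hden : (1 : ℝ) ≤ (p + 4) * (40 * p) := by nlinarith
  have hc : 0 < c := by positivity
  have hc1 : 5 * c ≤ 1 := by
    rw [hcdef, mul_one_div, div_le_one (by positivity)]
    linarith
  have hcδ : (p + 4) * (5 * c) * (40 * p) ≤ 1 := by
    have : (p + 4) * (5 * c) * (40 * p) = 1 := by
      rw [hcdef]
      field_simp
    exact this.le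
  set ε : ℕ → ℝ := fun m => c * (1 / 2) ^ m with hε
  have hεpos : ∀ m, 0 < ε m := fun m => by positivity
  have hε1 : ∀ m, ε m ≤ 1 := by
    intro m
    have h1 : ((1 / 2 : ℝ)) ^ m ≤ 1 := pow_le_one₀ (by norm_num) (by norm_num)
    calc ε m ≤ c * 1 := by
          simp only [hε]
          gcongr
      _ ≤ 1 := by linarith
  let G : Type := Fin p × Fin p
  let U : Λ → G → E := fun β g => w β g.1 g.2
  obtain ⟨N, hPN, α, hα⟩ := closing_off (#{j | p ∣ n j}) hP hcon (Over2 e)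
    (fun N hN => mk_Over2_le hP N hN) (fun N hN τ hτ => Over2_finitary N hN τ hτ)
    (Real2 n e U ε) {j | p ∣ n j} le_rfl
  -- approximations
  have hx : ∀ (g : G) (m : ℕ), ∃ T : Finset J, ∃ y ∈ D e (T : Set J), ‖y - U α g‖ ≤ ε m := by
    intro g m
    obtain ⟨T, y, hy, hwu⟩ := dense_D hgen (U α g) (hεpos m)
    exact ⟨T, y, hy, by rw [norm_sub_rev]; exact hwu.le⟩
  choose Tx x hxD hxu using hx
  set T : ℕ → Finset J := fun m => (Finset.range (m + 1)).biUnion fun k =>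
    (Finset.univ : Finset G).biUnion fun g => Tx g k with hT
  have hTmono : ∀ m, T m ⊆ T (m + 1) := fun m =>
    Finset.biUnion_subset_biUnion_of_subset_left _ (Finset.range_subset_range.mpr (by omega))
  have hxT : ∀ g m, x g m ∈ D e (T m : Set J) := fun g m => D_mono (by
    intro j hj
    simp only [hT, Finset.mem_coe, Finset.mem_biUnion, Finset.mem_range]
    exact ⟨m, by omega, g, Finset.mem_univ _, hj⟩) (hxD g m)
  set L : List J := ((T 0).filter (· ∉ N)).toList with hL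
  set r : ℕ → List J := fun m => ((T (m + 1) \ T m).filter (· ∉ N)).toList with hr
  set rest : ℕ → List J := fun m => Nat.rec [] (fun k l => l ++ r k) m with hrest
  have hrest0 : rest 0 = [] := rfl
  have hrestS : ∀ m, rest (m + 1) = rest m ++ r m := fun m => rfl
  have hmemL : ∀ m j, j ∈ L ++ rest m ↔ j ∈ T m ∧ j ∉ N := by
    intro m
    induction m with
    | zero =>
      intro j
      rw [hrest0, List.append_nil, hL, Finset.mem_toList, Finset.mem_filter]
    | succ m ih =>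
      intro j
      rw [hrestS, ← List.append_assoc, List.mem_append, ih]
      simp only [hr, Finset.mem_toList, Finset.mem_filter, Finset.mem_sdiff]
      constructor
      · rintro (⟨h1, h2⟩ | ⟨⟨h1, _⟩, h2⟩)
        · exact ⟨hTmono m h1, h2⟩
        · exact ⟨h1, h2⟩
      · rintro ⟨h1, h2⟩
        by_cases h3 : j ∈ T m
        · exact Or.inl ⟨h3, h2⟩
        · exact Or.inr ⟨⟨h1, h3⟩, h2⟩
  have hnodup : ∀ m, (L ++ rest m).Nodup := by
    intro m
    induction m with
    | zero =>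
      rw [hrest0, List.append_nil]
      exact Finset.nodup_toList _
    | succ m ih =>
      rw [hrestS, ← List.append_assoc]
      refine List.Nodup.append ih (Finset.nodup_toList _) ?_
      intro j hj hj'
      have h1 := (hmemL m j).mp hj
      simp only [hr, Finset.mem_toList, Finset.mem_filter, Finset.mem_sdiff] at hj'
      exact hj'.1.2 h1.1
  set R : ℕ → List J := fun m => ((T m).filter (· ∈ N)).toList with hR
  have hmemR : ∀ m j, j ∈ R m ↔ j ∈ T m ∧ j ∈ N := by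
    intro m j
    rw [hR, Finset.mem_toList, Finset.mem_filter]
  have hTsub : ∀ m, (T m : Set J) ⊆ {j | j ∈ R m} ∪ {j | j ∈ L ++ rest m} := by
    intro m j hj
    by_cases h3 : j ∈ N
    · exact Or.inl ((hmemR m j).mpr ⟨hj, h3⟩)
    · exact Or.inr ((hmemL m j).mpr ⟨hj, h3⟩)
  have hLR : ∀ m, ∀ j ∈ L ++ rest m, j ∉ R m := fun m j hj hj' =>
    ((hmemL m j).mp hj).2 ((hmemR m j).mp hj').2
  have hxD' : ∀ g m, x g m ∈ D e ({j | j ∈ R m} ∪ {j | j ∈ L ++ rest m}) := fun g m =>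
    D_mono (hTsub m) (hxT g m)
  -- the twin
  have htwin : ∀ m, ∃ β, β ≠ α ∧ ∃ ℓ' : List J, (∀ j ∈ ℓ', j ∉ L ++ rest m) ∧
      (∀ j ∈ ℓ', j ∉ R m) ∧ ℓ'.map n = (L ++ rest m).map n ∧ ∃ x' : G → E,
      (∀ g, ‖x' g - U β g‖ ≤ ε m) ∧
      profs n e ℓ' x' = profs n e (L ++ rest m) (fun g => x g m) := by
    intro m
    have hover : ((m, R m, (L ++ rest m).map n, profs n e (L ++ rest m) (fun g => x g m)) :
        Ty2 J E) ∈ Over2 e N := by
      refine ⟨fun j hj => ((hmemR m j).mp hj).2, ?_⟩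
      intro l hl c hc
      unfold profs at hl
      obtain ⟨g0, -, rfl⟩ := List.mem_map.mp hl
      obtain ⟨f, hf, g, hg, rfl⟩ := mem_prof hc
      refine Sl_mem_D h _ (hnodup m) (fun j hj => ((hmemL m j).mp hj).2) ?_ f g hf hg
      refine D_mono ?_ (hxT g0 m)
      intro j hj
      by_cases h3 : j ∈ N
      · exact Or.inl h3
      · exact Or.inr ((hmemL m j).mpr ⟨hj, h3⟩)
    obtain ⟨β, hβ, t', ht', ℓ', h1, h2, h3, h4, x', hx', h5, h6⟩ :=
      hα _ hover {j | j ∈ L ++ rest m}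
        (Set.disjoint_left.mpr fun j hj hjN => ((hmemL m j).mp hj).2 hjN)
        ⟨L ++ rest m, hnodup m, rfl, hLR m, rfl, fun g => x g m, fun g => hxD' g m,
          fun g => hxu g m, rfl⟩
        {j | j ∈ L ++ rest m} (List.finite_toSet _)
    refine ⟨β, hβ, ℓ', ?_, h3, h4, x', h5, h6⟩
    intro j hj hj'
    rw [← h2] at ht'
    exact Set.disjoint_left.mp ht' hj hj'
  have hUn : ∀ (β : Λ) (g : G), ‖U β g‖ ≤ 1 := fun β g => norm_mu_le (MU.of_sys hw β) _ _
  have hUc : ∀ (β γ : Λ), β ≠ γ → ∀ g g' : G, U β g * U γ g' = U γ g' * U β g :=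
    fun β γ hβγ g g' => (hw.comm β γ hβγ _ _ _ _).eq
  -- apply the core
  obtain ⟨Z, C, hCcl, hCcomm, hZU, hZs, hZmem⟩ := coreG h hc (G := G) (fun g => (g.2, g.1))
    L rest r hrest0 hrestS
    (fun g m => x g m) (fun g => U α g)
    (fun g => hw.star_e α g.1 g.2)
    (fun g m => hxu g m)
    (by
      have hrT : ∀ m, ∀ j ∈ r m, j ∉ (T m : Set J) := by
        intro m j hj
        simp only [hr, Finset.mem_toList, Finset.mem_filter, Finset.mem_sdiff] at hj
        exact hj.1.2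
      intro g m j hj a d
      exact commute_of_mem_D h (hxT g m) (hrT m j hj) a d)
    (by
      intro b b' m f hf g hg f' hf' g' hg'
      obtain ⟨β, hβ, ℓ', hdis, hℓ'R, hmap, x', hx', hpx⟩ := htwin m
      exact (stage h (hnodup m) (hLR m) hmap hdis hℓ'R (hxD' b m) (hxD' b' m)
        (profs_eq hpx b') f g f' g' hf' hg').trans
          (norm_comm_le (hε1 m) (hUn _ _) (hUn _ _) (hxu b m) (hx' b') (hUc _ _ hβ.symm _ _)))
  have hdvd : p ∣ (L.map n).prod := by
    let y : ℕ → ℕ → E := fun a b => if hh : a < p ∧ b < p then Z (⟨a, hh.1⟩, ⟨b, hh.2⟩) else 0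
    have hy : ∀ a (ha : a < p) b (hb : b < p), y a b = Z (⟨a, ha⟩, ⟨b, hb⟩) := fun a ha b hb =>
      dif_pos ⟨ha, hb⟩
    refine transferMU h L C hCcl hCcomm hp0 (δ := (p + 4) * (5 * c)) (by positivity) hcδ y ?_ ?_
    · intro a ha b hb
      rw [hy a ha b hb]
      exact hZmem _
    · have hmu := MU.of_sys hw α
      refine amu_of_close (u := w α) hc1 (fun a _ b _ => norm_mu_le hmu a b)
        (fun a _ b hb c _ => hmu.mul_same a b c hb)
        (fun a _ b _ c _ d _ hbc => hmu.mul_ne a b c d hbc) hmu.one ?_ ?_ (by positivity)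
      · intro a ha b hb
        rw [hy a ha b hb, hy b hb a ha, hZs]
      · intro a ha b hb
        rw [hy a ha b hb]
        exact hZU _
  have hnd : ¬ p ∣ (L.map n).prod := by
    rw [hL, Finset.prod_map_toList, Prime.dvd_finsetProd_iff hp.out.prime]
    rintro ⟨j, hj, hd⟩
    exact (Finset.mem_filter.mp hj).2 (hPN hd)
  exact hnd hdvd

/-- infinitely many commuting copies of `M_p` need at least as many factors divisible by `p` -/
theorem mk_leG [Nontrivial E] (h : MUSys n e)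
    (hgen : (Algebra.adjoin ℂ {x | ∃ j a b, x = e j a b}).topologicalClosure = ⊤)
    (p : ℕ) [hp : Fact p.Prime]
    {Λ : Type u} [Infinite Λ] {w : Λ → ℕ → ℕ → E} (hw : MUSys (fun _ : Λ => p) w) :
    #Λ ≤ #{j | p ∣ n j} := by
  rcases lt_or_ge (#{j | p ∣ n j}) ℵ₀ with hP | hP
  · exact absurd (not_infinite_of_finiteG h hgen p hw
      (Cardinal.lt_aleph0_iff_set_finite.mp hP)) id
  · exact mk_le_of_infiniteG h hgen p hw hP

end Pool.Agent.Q193.UHF
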