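import Pool.Agent.Helper741.UHF.Exist

/-!
# Approximate matrix units on finite-dimensional Hilbert spaces
-/

set_option autoImplicit false

open Module

universe u

namespace Pool.Agent.Q193.UHF

open Pool.Agent.Helper741.UHF

/-- approximate `N × N` matrix units -/
structure AMU {A : Type*} [CStarAlgebra A] (N : ℕ) (δ : ℝ) (x : ℕ → ℕ → A) : Prop where
  sa : ∀ a < N, ∀ b < N, star (x a b) = x b a
  norm : ∀ a < N, ∀ b < N, ‖x a b‖ ≤ 2
  same : ∀ a < N, ∀ b < N, ∀ c < N, ‖x a b * x b c - x a c‖ ≤ δ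
  ne : ∀ a < N, ∀ b < N, ∀ c < N, ∀ d < N, b ≠ c → ‖x a b * x c d‖ ≤ δ
  one : ‖∑ a ∈ Finset.range N, x a a - 1‖ ≤ δ

section hilbert

variable {H : Type u} [NormedAddCommGroup H] [InnerProductSpace ℂ H] [FiniteDimensional ℂ H]

theorem exists_proj {N : ℕ} (hN : 0 < N) {δ : ℝ} (hδ0 : 0 ≤ δ) (hδ : δ ≤ 1 / 40)
    {x : ℕ → ℕ → (H →L[ℂ] H)} (h : AMU N δ x) :
    ∃ P : H →L[ℂ] H, IsStarProjection P ∧ ‖P - x 0 0‖ ≤ 2 * δ := by
  set X : H →L[ℂ] H := (2 : ℝ) • x 0 0 - 1 with hX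
  have hsa : IsSelfAdjoint X := by
    rw [IsSelfAdjoint, hX, star_sub, star_one, star_smul, h.sa 0 hN 0 hN]
    simp
  have hsq : X * X - 1 = (4 : ℝ) • (x 0 0 * x 0 0 - x 0 0) := by
    rw [hX]
    simp only [sub_mul, mul_sub, smul_mul_assoc, mul_smul_comm, one_mul, mul_one, smul_smul,
      smul_sub]
    have : (4 : ℝ) • x 0 0 = (2 : ℝ) • x 0 0 + (2 : ℝ) • x 0 0 := by
      rw [← add_smul]; norm_num
    rw [this]
    norm_num
    abel
  have hn : ‖X * X - 1‖ ≤ 4 * δ := by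
    rw [hsq, norm_smul]
    have := h.same 0 hN 0 hN 0 hN
    norm_num
    linarith
  obtain ⟨P, hP, hPX⟩ := exists_projection hsa (δ := 4 * δ) (by linarith) (by linarith) hn
  refine ⟨P, hP, ?_⟩
  have e : (1 / 2 : ℝ) • (1 + X) = x 0 0 := by
    rw [hX, add_sub_cancel, smul_smul]
    norm_num
  rw [e] at hPX
  linarith

theorem finrank_eq {N : ℕ} (hN : 0 < N) {δ : ℝ} (hδ0 : 0 ≤ δ) (hδ : δ * (40 * N) ≤ 1)
    {x : ℕ → ℕ → (H →L[ℂ] H)} (h : AMU N δ x) : N ∣ finrank ℂ H := by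
  have hN1 : (1 : ℝ) ≤ N := by exact_mod_cast hN
  have hδ40 : δ ≤ 1 / 40 := by nlinarith
  obtain ⟨P, hP, hPx⟩ := exists_proj hN hδ0 hδ40 h
  have hPP : ∀ η, P (P η) = P η := fun η => by
    have := congrArg (fun T : H →L[ℂ] H => T η) hP.isIdempotentElem.eq
    simpa using this
  have hPn : ‖P‖ ≤ 1 := norm_proj_le_one hP
  set V : Submodule ℂ H := LinearMap.range (P : H →ₗ[ℂ] H) with hV
  have hPv : ∀ v : V, P (v : H) = v := by
    rintro ⟨_, η, rfl⟩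
    exact hPP η
  -- the map Φ
  let Φ : (Fin N → V) →ₗ[ℂ] H := ∑ a : Fin N,
    ((x a 0 : H →L[ℂ] H) : H →ₗ[ℂ] H) ∘ₗ V.subtype ∘ₗ LinearMap.proj a
  have hΦ : ∀ ξ : Fin N → V, Φ ξ = ∑ a : Fin N, x a 0 (ξ a : H) := by
    intro ξ
    simp [Φ, LinearMap.sum_apply]
  let Ψ : H →ₗ[ℂ] (Fin N → V) := LinearMap.pi fun a : Fin N =>
    ((P : H →ₗ[ℂ] H).rangeRestrict) ∘ₗ ((x 0 a : H →L[ℂ] H) : H →ₗ[ℂ] H)
  have hΨ : ∀ (ξ : H) (a : Fin N), ((Ψ ξ a : V) : H) = P (x 0 a ξ) := fun ξ a => rfl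
  have happ : ∀ (T : H →L[ℂ] H) (c : ℝ) (v : H), ‖T‖ ≤ c → ‖T v‖ ≤ c * ‖v‖ := fun T c v hT =>
    (T.le_opNorm v).trans (by gcongr)
  have hinjΦ : Function.Injective Φ := by
    rw [← LinearMap.ker_eq_bot, LinearMap.ker_eq_bot']
    intro ξ hξ
    rw [hΦ] at hξ
    have hb : ∀ b : Fin N, ‖ξ b‖ ≤ (3 * δ) * ∑ a, ‖ξ a‖ := by
      intro b
      have h1 : (ξ b : H) = P ((P - x 0 0) (ξ b : H)) -
          ∑ a : Fin N, P ((x 0 b * x a 0 - if b = a then x 0 0 else 0) (ξ a : H)) := by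
        have h2 : ∑ a : Fin N, P ((x 0 b * x a 0) (ξ a : H)) = 0 := by
          have : ∑ a : Fin N, P ((x 0 b * x a 0) (ξ a : H)) = P (x 0 b (∑ a : Fin N, x a 0 (ξ a : H))) := by
            rw [map_sum, map_sum]
            rfl
          rw [this, hξ, map_zero, map_zero]
        have h3 : ∑ a : Fin N, P ((x 0 b * x a 0 - if b = a then x 0 0 else 0) (ξ a : H)) =
            - P (x 0 0 (ξ b : H)) := by
          have : ∀ a : Fin N, P ((x 0 b * x a 0 - if b = a then x 0 0 else 0) (ξ a : H)) =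
              P ((x 0 b * x a 0) (ξ a : H)) - (if b = a then P (x 0 0 (ξ a : H)) else 0) := by
            intro a
            rw [sub_apply, map_sub]
            congr 1
            split_ifs <;> simp
          rw [Finset.sum_congr rfl fun a _ => this a, Finset.sum_sub_distrib, h2,
            Finset.sum_ite_eq, if_pos (Finset.mem_univ _), zero_sub]
        rw [h3, sub_apply, map_sub, hPv, hPv]
        abel
      have h4 : ‖P ((P - x 0 0) (ξ b : H))‖ ≤ 1 * ((2 * δ) * ‖(ξ b : H)‖) :=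
        (happ P 1 _ hPn).trans (by gcongr; exact happ _ _ _ hPx)
      have h5 : ‖∑ a : Fin N, P ((x 0 b * x a 0 - if b = a then x 0 0 else 0) (ξ a : H))‖ ≤
          ∑ a, δ * ‖ξ a‖ := by
        refine norm_sum_le_of_le _ fun a _ => ?_
        refine (happ P 1 _ hPn).trans ?_
        rw [one_mul]
        refine happ _ _ _ ?_
        split_ifs with hab
        · subst hab
          exact h.same 0 hN b b.2 0 hN
        · rw [sub_zero]
          exact h.ne 0 hN b b.2 a a.2 0 hN (fun hh => hab (Fin.ext hh))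
      rw [← Finset.mul_sum] at h5
      have h6 : ‖ξ b‖ ≤ ∑ a, ‖ξ a‖ :=
        Finset.single_le_sum (f := fun a => ‖ξ a‖) (fun a _ => norm_nonneg _) (Finset.mem_univ b)
      have h7 : ‖ξ b‖ = ‖(ξ b : H)‖ := rfl
      calc ‖ξ b‖ = ‖P ((P - x 0 0) (ξ b : H)) -
          ∑ a : Fin N, P ((x 0 b * x a 0 - if b = a then x 0 0 else 0) (ξ a : H))‖ := by rw [← h1]; rfl
        _ ≤ 1 * ((2 * δ) * ‖(ξ b : H)‖) + δ * ∑ a, ‖ξ a‖ :=
            (norm_sub_le _ _).trans (add_le_add h4 h5)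
        _ ≤ (3 * δ) * ∑ a, ‖ξ a‖ := by
            rw [← h7]
            nlinarith
    have hs : ∑ b, ‖ξ b‖ ≤ N * ((3 * δ) * ∑ a, ‖ξ a‖) := by
      refine (Finset.sum_le_card_nsmul _ _ _ fun b _ => hb b).trans ?_
      rw [nsmul_eq_mul, Finset.card_univ, Fintype.card_fin]
    have hs0 : 0 ≤ ∑ b, ‖ξ b‖ := Finset.sum_nonneg fun b _ => norm_nonneg _
    have hs1 : ∑ b, ‖ξ b‖ = 0 := by nlinarith
    funext b
    have := (Finset.sum_eq_zero_iff_of_nonneg fun b _ => norm_nonneg (ξ b)).mp hs1 b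
      (Finset.mem_univ b)
    exact norm_eq_zero.mp this
  have hinjΨ : Function.Injective Ψ := by
    rw [← LinearMap.ker_eq_bot, LinearMap.ker_eq_bot']
    intro ξ hξ
    have h0 : ∀ a : Fin N, P (x 0 a ξ) = 0 := by
      intro a
      rw [← hΨ, hξ]
      rfl
    have ha : ∀ a : Fin N, ‖x 0 a ξ‖ ≤ 5 * δ * ‖ξ‖ := by
      intro a
      have h1 : x 0 a ξ = -((x 0 0 * x 0 a - x 0 a) ξ) - ((P - x 0 0) (x 0 a ξ)) := by
        rw [sub_apply, sub_apply, h0]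
        change x 0 a ξ = -(x 0 0 (x 0 a ξ) - x 0 a ξ) - (0 - x 0 0 (x 0 a ξ))
        abel
      have h2 : ‖(x 0 0 * x 0 a - x 0 a) ξ‖ ≤ δ * ‖ξ‖ :=
        happ _ _ _ (h.same 0 hN 0 hN a a.2)
      have h3 : ‖(P - x 0 0) (x 0 a ξ)‖ ≤ (2 * δ) * (2 * ‖ξ‖) :=
        (happ _ _ _ hPx).trans (by gcongr; exact happ _ _ _ (h.norm 0 hN a a.2))
      rw [h1]
      refine (norm_sub_le _ _).trans ?_
      rw [norm_neg]
      linarith
    have h1 : ξ = -((∑ a ∈ Finset.range N, x a a - 1) ξ) -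
        ∑ a : Fin N, (x a 0 * x 0 a - x a a) ξ + ∑ a : Fin N, x a 0 (x 0 a ξ) := by
      have h2 : (∑ a ∈ Finset.range N, x a a - 1) ξ = ∑ a : Fin N, x a a ξ - ξ := by
        rw [Finset.sum_range, sub_apply, sum_apply]
        rfl
      have h3 : ∑ a : Fin N, (x a 0 * x 0 a - x a a) ξ =
          ∑ a : Fin N, x a 0 (x 0 a ξ) - ∑ a : Fin N, x a a ξ := by
        rw [← Finset.sum_sub_distrib]
        rfl
      rw [h2, h3]
      abel
    have h2 : ‖(∑ a ∈ Finset.range N, x a a - 1) ξ‖ ≤ δ * ‖ξ‖ := happ _ _ _ h.one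
    have h3 : ‖∑ a : Fin N, (x a 0 * x 0 a - x a a) ξ‖ ≤ N * (δ * ‖ξ‖) := by
      refine (norm_sum_le_of_le _ fun (a : Fin N) _ => happ _ _ _ (h.same a a.2 0 hN a a.2)).trans ?_
      rw [Finset.sum_const, Finset.card_univ, Fintype.card_fin, nsmul_eq_mul]
    have h4 : ‖∑ a : Fin N, x a 0 (x 0 a ξ)‖ ≤ N * (2 * (5 * δ * ‖ξ‖)) := by
      refine (norm_sum_le_of_le _ fun (a : Fin N) _ =>
        (happ _ _ _ (h.norm a a.2 0 hN)).trans (mul_le_mul_of_nonneg_left (ha a)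
          (by norm_num))).trans ?_
      rw [Finset.sum_const, Finset.card_univ, Fintype.card_fin, nsmul_eq_mul]
    have h5 : ‖ξ‖ ≤ δ * ‖ξ‖ + N * (δ * ‖ξ‖) + N * (2 * (5 * δ * ‖ξ‖)) := by
      calc ‖ξ‖ = ‖-((∑ a ∈ Finset.range N, x a a - 1) ξ) -
        ∑ a : Fin N, (x a 0 * x 0 a - x a a) ξ + ∑ a : Fin N, x a 0 (x 0 a ξ)‖ := by rw [← h1]
        _ ≤ ‖-((∑ a ∈ Finset.range N, x a a - 1) ξ) -
        ∑ a : Fin N, (x a 0 * x 0 a - x a a) ξ‖ + ‖∑ a : Fin N, x a 0 (x 0 a ξ)‖ :=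
            norm_add_le _ _
        _ ≤ ‖-((∑ a ∈ Finset.range N, x a a - 1) ξ)‖ +
        ‖∑ a : Fin N, (x a 0 * x 0 a - x a a) ξ‖ + ‖∑ a : Fin N, x a 0 (x 0 a ξ)‖ := by
            gcongr
            exact norm_sub_le _ _
        _ ≤ _ := by
            rw [norm_neg]
            linarith
    have h6 : δ * ‖ξ‖ + N * (δ * ‖ξ‖) + N * (2 * (5 * δ * ‖ξ‖)) ≤ (12 / 40) * ‖ξ‖ := by
      have : δ * ‖ξ‖ + N * (δ * ‖ξ‖) + N * (2 * (5 * δ * ‖ξ‖)) = (δ + 11 * (δ * N)) * ‖ξ‖ := by ring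
      rw [this]
      gcongr
      nlinarith
    have h7 : ‖ξ‖ = 0 := by nlinarith [norm_nonneg ξ]
    exact norm_eq_zero.mp h7
  have d1 := LinearMap.finrank_le_finrank_of_injective hinjΦ
  have d2 := LinearMap.finrank_le_finrank_of_injective hinjΨ
  rw [Module.finrank_pi_fintype] at d1 d2
  simp only [Finset.sum_const, Finset.card_univ, Fintype.card_fin, smul_eq_mul] at d1 d2
  exact ⟨finrank ℂ V, le_antisymm d2 d1⟩

end hilbert

end Pool.Agent.Q193.UHF
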