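import Pool.Agent.Q193.UHF.Main

/-!
# Splitting matrix units into matrix units of prime size
-/

set_option autoImplicit false

open Finset Cardinal

universe u

namespace Pool.Agent.Q193.UHF

open Pool.Agent.Helper741.UHF

variable {E : Type*} [CStarAlgebra E]

lemma idx_inj {N a a' c c' : ℕ} (hc : c < N) (hc' : c' < N) (h : a * N + c = a' * N + c') :
    a = a' ∧ c = c' := by
  have hN : 0 < N := by omega
  have h1 : (a * N + c) / N = a := by
    rw [mul_comm, Nat.mul_add_div hN, Nat.div_eq_of_lt hc, add_zero]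
  have h2 : (a' * N + c') / N = a' := by
    rw [mul_comm, Nat.mul_add_div hN, Nat.div_eq_of_lt hc', add_zero]
  have h3 : a = a' := by rw [← h1, h, h2]
  subst h3
  exact ⟨rfl, by omega⟩

lemma idx_lt {N p a c : ℕ} (ha : a < p) (hc : c < N) : a * N + c < p * N := by
  calc a * N + c < a * N + N := by omega
    _ = (a + 1) * N := by ring
    _ ≤ p * N := Nat.mul_le_mul_right _ ha

/-- first factor -/
noncomputable def sF (p N : ℕ) (u : ℕ → ℕ → E) (a b : ℕ) : E :=
  if a < p ∧ b < p then ∑ c ∈ range N, u (a * N + c) (b * N + c) else 0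

/-- second factor -/
noncomputable def vF (p N : ℕ) (u : ℕ → ℕ → E) (a b : ℕ) : E :=
  if a < N ∧ b < N then ∑ c ∈ range p, u (c * N + a) (c * N + b) else 0

variable {p N : ℕ} {u : ℕ → ℕ → E}

lemma sF_mu (hp : 0 < p) (hu : MU (p * N) u) : MU p (sF p N u) := by
  refine ⟨hp, fun a b ha => if_neg (by omega), fun a b c hb => ?_, fun a b c d hbc => ?_,
    fun a b => ?_, ?_⟩
  · unfold sF
    by_cases ha : a < p
    · by_cases hc : c < p
      · rw [if_pos ⟨ha, hb⟩, if_pos ⟨hb, hc⟩, if_pos ⟨ha, hc⟩, Finset.sum_mul_sum]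
        refine Finset.sum_congr rfl fun x hx => ?_
        rw [Finset.mem_range] at hx
        rw [Finset.sum_eq_single x]
        · exact hu.mul_same _ _ _ (idx_lt hb hx)
        · intro y hy hyx
          rw [Finset.mem_range] at hy
          refine hu.mul_ne _ _ _ _ fun hh => hyx ?_
          exact (idx_inj hx hy hh).2.symm
        · intro hh
          exact absurd (Finset.mem_range.mpr hx) hh
      · rw [if_neg (fun h : b < p ∧ c < p => hc h.2), if_neg (fun h : a < p ∧ c < p => hc h.2),
          mul_zero]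
    · rw [if_neg (fun h : a < p ∧ b < p => ha h.1), if_neg (fun h : a < p ∧ c < p => ha h.1),
        zero_mul]
  · unfold sF
    split_ifs
    · rw [Finset.sum_mul_sum]
      refine Finset.sum_eq_zero fun x hx => Finset.sum_eq_zero fun y hy => ?_
      rw [Finset.mem_range] at hx hy
      refine hu.mul_ne _ _ _ _ fun hh => hbc ?_
      exact (idx_inj hx hy hh).1
    · rw [mul_zero]
    · rw [zero_mul]
    · rw [zero_mul]
  · unfold sF
    by_cases h : a < p ∧ b < p
    · rw [if_pos h, if_pos h.symm, star_sum]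
      exact Finset.sum_congr rfl fun x _ => hu.star_e _ _
    · rw [if_neg h, if_neg (fun h' => h h'.symm), star_zero]
  · have h1 : ∀ a ∈ range p, sF p N u a a = ∑ c ∈ range N, u (a * N + c) (a * N + c) := by
      intro a ha
      rw [Finset.mem_range] at ha
      exact if_pos ⟨ha, ha⟩
    rw [Finset.sum_congr rfl h1, ← Finset.sum_product', ← hu.one]
    refine Finset.sum_nbij' (fun x => x.1 * N + x.2) (fun a => (a / N, a % N)) ?_ ?_ ?_ ?_ ?_
    · rintro ⟨x, y⟩ hx
      rw [mem_product, mem_range, mem_range] at hx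
      rw [mem_range]
      exact idx_lt hx.1 hx.2
    · intro a ha
      rw [mem_range] at ha
      have hN : 0 < N := by
        rcases Nat.eq_zero_or_pos N with h | h
        · subst h; simp at ha
        · exact h
      rw [mem_product, mem_range, mem_range]
      exact ⟨Nat.div_lt_of_lt_mul (by rwa [mul_comm] at ha), Nat.mod_lt _ hN⟩
    · rintro ⟨x, y⟩ hx
      rw [mem_product, mem_range, mem_range] at hx
      obtain ⟨h1, h2⟩ := hx
      dsimp only at h1 h2 ⊢
      rw [mul_comm x N, Nat.mul_add_div (by omega), Nat.mul_add_mod, Nat.div_eq_of_lt h2,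
        Nat.mod_eq_of_lt h2, add_zero]
    · intro a _
      rw [mul_comm]
      exact Nat.div_add_mod a N
    · intro a _
      rfl

lemma vF_mu (hp : 0 < p) (hN : 0 < N) (hu : MU (p * N) u) : MU N (vF p N u) := by
  refine ⟨hN, fun a b ha => if_neg (by omega), fun a b c hb => ?_, fun a b c d hbc => ?_,
    fun a b => ?_, ?_⟩
  · unfold vF
    by_cases ha : a < N
    · by_cases hc : c < N
      · rw [if_pos ⟨ha, hb⟩, if_pos ⟨hb, hc⟩, if_pos ⟨ha, hc⟩, Finset.sum_mul_sum]
        refine Finset.sum_congr rfl fun x hx => ?_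
        rw [Finset.mem_range] at hx
        rw [Finset.sum_eq_single x]
        · exact hu.mul_same _ _ _ (idx_lt hx hb)
        · intro y hy hyx
          rw [Finset.mem_range] at hy
          refine hu.mul_ne _ _ _ _ fun hh => hyx ?_
          exact (idx_inj hb hb hh).1.symm
        · intro hh
          exact absurd (Finset.mem_range.mpr hx) hh
      · rw [if_neg (fun h : b < N ∧ c < N => hc h.2), if_neg (fun h : a < N ∧ c < N => hc h.2),
          mul_zero]
    · rw [if_neg (fun h : a < N ∧ b < N => ha h.1), if_neg (fun h : a < N ∧ c < N => ha h.1),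
        zero_mul]
  · unfold vF
    split_ifs with h1 h2
    · rw [Finset.sum_mul_sum]
      refine Finset.sum_eq_zero fun x hx => Finset.sum_eq_zero fun y hy => ?_
      refine hu.mul_ne _ _ _ _ fun hh => hbc ?_
      exact (idx_inj h1.2 h2.1 hh).2
    · rw [mul_zero]
    · rw [zero_mul]
    · rw [zero_mul]
  · unfold vF
    by_cases h : a < N ∧ b < N
    · rw [if_pos h, if_pos h.symm, star_sum]
      exact Finset.sum_congr rfl fun x _ => hu.star_e _ _
    · rw [if_neg h, if_neg (fun h' => h h'.symm), star_zero]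
  · have h1 : ∀ a ∈ range N, vF p N u a a = ∑ c ∈ range p, u (c * N + a) (c * N + a) := by
      intro a ha
      rw [Finset.mem_range] at ha
      exact if_pos ⟨ha, ha⟩
    have h2 : ∀ a ∈ range p, sF p N u a a = ∑ c ∈ range N, u (a * N + c) (a * N + c) := by
      intro a ha
      rw [Finset.mem_range] at ha
      exact if_pos ⟨ha, ha⟩
    rw [Finset.sum_congr rfl h1, Finset.sum_comm, ← Finset.sum_congr rfl h2]
    exact (sF_mu hp hu).one

lemma sF_mul_vF (hu : MU (p * N) u) {a b c d : ℕ} (ha : a < p) (hb : b < p) (hc : c < N)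
    (hd : d < N) : sF p N u a b * vF p N u c d = u (a * N + c) (b * N + d) := by
  unfold sF vF
  rw [if_pos ⟨ha, hb⟩, if_pos ⟨hc, hd⟩, Finset.sum_mul_sum, Finset.sum_eq_single c]
  · rw [Finset.sum_eq_single b]
    · exact hu.mul_same _ _ _ (idx_lt hb hc)
    · intro y _ hyb
      exact hu.mul_ne _ _ _ _ fun hh => hyb (idx_inj hc hc hh).1.symm
    · intro hh
      exact absurd (Finset.mem_range.mpr hb) hh
  · intro x hx hxc
    rw [Finset.mem_range] at hx
    refine Finset.sum_eq_zero fun y _ => ?_
    exact hu.mul_ne _ _ _ _ fun hh => hxc (idx_inj hx hc hh).2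
  · intro hh
    exact absurd (Finset.mem_range.mpr hc) hh

lemma vF_mul_sF (hu : MU (p * N) u) {a b c d : ℕ} (ha : a < p) (hb : b < p) (hc : c < N)
    (hd : d < N) : vF p N u c d * sF p N u a b = u (a * N + c) (b * N + d) := by
  unfold sF vF
  rw [if_pos ⟨hc, hd⟩, if_pos ⟨ha, hb⟩, Finset.sum_mul_sum, Finset.sum_eq_single a]
  · rw [Finset.sum_eq_single d]
    · exact hu.mul_same _ _ _ (idx_lt ha hd)
    · intro y hy hyb
      rw [Finset.mem_range] at hy
      exact hu.mul_ne _ _ _ _ fun hh => hyb (idx_inj hd hy hh).2.symm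
    · intro hh
      exact absurd (Finset.mem_range.mpr hd) hh
  · intro x hx hxc
    refine Finset.sum_eq_zero fun y hy => ?_
    rw [Finset.mem_range] at hy
    exact hu.mul_ne _ _ _ _ fun hh => hxc (idx_inj hd hy hh).1
  · intro hh
    exact absurd (Finset.mem_range.mpr ha) hh

lemma sF_comm (hu : MU (p * N) u) (a b c d : ℕ) : Commute (sF p N u a b) (vF p N u c d) := by
  by_cases h1 : a < p ∧ b < p
  · by_cases h2 : c < N ∧ d < N
    · exact (sF_mul_vF hu h1.1 h1.2 h2.1 h2.2).trans (vF_mul_sF hu h1.1 h1.2 h2.1 h2.2).symm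
    · have : vF p N u c d = 0 := if_neg h2
      rw [this]
      exact Commute.zero_right _
  · have : sF p N u a b = 0 := if_neg h1
    rw [this]
    exact Commute.zero_left _

lemma MU.zero_right (hu : MU N u) (a b : ℕ) (hb : N ≤ b) : u a b = 0 := by
  rw [← star_star (u a b), hu.star_e, hu.zero_left b a hb, star_zero]

lemma eq_sF_vF (hN : 0 < N) (hu : MU (p * N) u) (a b : ℕ) :
    u a b = sF p N u (a / N) (b / N) * vF p N u (a % N) (b % N) := by
  by_cases ha : a < p * N
  · by_cases hb : b < p * N
    · rw [sF_mul_vF hu (Nat.div_lt_of_lt_mul (by rwa [mul_comm] at ha))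
        (Nat.div_lt_of_lt_mul (by rwa [mul_comm] at hb)) (Nat.mod_lt _ hN) (Nat.mod_lt _ hN),
        mul_comm (a / N), mul_comm (b / N), Nat.div_add_mod, Nat.div_add_mod]
    · have h1 : p ≤ b / N := (Nat.le_div_iff_mul_le hN).mpr (not_lt.mp hb)
      have h2 : sF p N u (a / N) (b / N) = 0 := if_neg (fun h => absurd h.2 (not_lt.mpr h1))
      rw [h2, zero_mul, hu.zero_right a b (not_lt.mp hb)]
  · have h1 : p ≤ a / N := (Nat.le_div_iff_mul_le hN).mpr (not_lt.mp ha)
    have h2 : sF p N u (a / N) (b / N) = 0 := if_neg (fun h => absurd h.1 (not_lt.mpr h1))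
    rw [h2, zero_mul, hu.zero_left a b (not_lt.mp ha)]

lemma sF_commute {y : E} (hy : ∀ a b, Commute (u a b) y) (a b : ℕ) :
    Commute (sF p N u a b) y := by
  unfold sF
  split_ifs
  · exact Commute.sum_left _ _ _ fun c _ => hy _ _
  · exact Commute.zero_left _

lemma vF_commute {y : E} (hy : ∀ a b, Commute (u a b) y) (a b : ℕ) :
    Commute (vF p N u a b) y := by
  unfold vF
  split_ifs
  · exact Commute.sum_left _ _ _ fun c _ => hy _ _
  · exact Commute.zero_left _

/-- splitting along a factorisation of the size -/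
theorem split_list (ps : List ℕ) (hps : ∀ p ∈ ps, 0 < p) : ∀ u : ℕ → ℕ → E, MU ps.prod u →
    ∃ w : Fin ps.length → ℕ → ℕ → E, (∀ i, MU (ps.get i) (w i)) ∧
      (∀ i j, i ≠ j → ∀ a b c d, Commute (w i a b) (w j c d)) ∧
      (∀ y, (∀ a b, Commute (u a b) y) → ∀ i a b, Commute (w i a b) y) ∧
      ∀ a b, u a b ∈ Algebra.adjoin ℂ {x | ∃ i a b, x = w i a b} := by
  induction ps with
  | nil =>
    intro u hu
    refine ⟨fun i => i.elim0, fun i => i.elim0, fun i => i.elim0, fun _ _ i => i.elim0, ?_⟩
    intro a b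
    rw [List.prod_nil] at hu
    by_cases ha : a = 0
    · by_cases hb : b = 0
      · subst ha; subst hb
        have := hu.one
        rw [Finset.sum_range_one] at this
        rw [this]
        exact one_mem _
      · rw [hu.zero_right a b (by omega)]
        exact zero_mem _
    · rw [hu.zero_left a b (by omega)]
      exact zero_mem _
  | cons p ps ih =>
    intro u hu
    have hp := hps p List.mem_cons_self
    have hps' : ∀ q ∈ ps, 0 < q := fun q hq => hps q (List.mem_cons_of_mem _ hq)
    have hN : 0 < ps.prod := List.prod_pos hps'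
    rw [List.prod_cons] at hu
    obtain ⟨w, h1, h2, h3, h4⟩ := ih hps' (vF p ps.prod u) (vF_mu hp hN hu)
    refine ⟨Fin.cons (α := fun _ => ℕ → ℕ → E) (sF p ps.prod u) w, ?_, ?_, ?_, ?_⟩
    · intro i
      refine Fin.cases ?_ (fun i => ?_) i
      · exact sF_mu hp hu
      · exact h1 i
    · have hsw : ∀ i a b c d, Commute (sF p ps.prod u a b) (w i c d) := fun i a b c d =>
        (h3 _ (fun a' b' => (sF_comm hu a b a' b').symm) i c d).symm
      intro i j
      refine Fin.cases ?_ (fun i => ?_) i
      · refine Fin.cases ?_ (fun j => ?_) j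
        · intro hh; exact absurd rfl hh
        · intro _ a b c d
          exact hsw j a b c d
      · refine Fin.cases ?_ (fun j => ?_) j
        · intro _ a b c d
          exact (hsw i c d a b).symm
        · intro hij a b c d
          exact h2 i j (fun hh => hij (by rw [hh])) a b c d
    · intro y hy i
      refine Fin.cases ?_ (fun i => ?_) i
      · exact fun a b => sF_commute hy a b
      · exact h3 y (fun a b => vF_commute hy a b) i
    · intro a b
      rw [eq_sF_vF hN hu a b]
      refine mul_mem ?_ ?_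
      · exact Algebra.subset_adjoin ⟨0, _, _, rfl⟩
      · refine Algebra.adjoin_mono ?_ (h4 _ _)
        rintro x ⟨i, a, b, rfl⟩
        exact ⟨i.succ, a, b, rfl⟩

section fam

variable {J E : Type u} [CStarAlgebra E] {n : J → ℕ} {e : J → ℕ → ℕ → E}

/-- the index type of the prime factors, with multiplicity -/
abbrev PF (n : J → ℕ) : Type u := Σ j, Fin (n j).primeFactorsList.length

/-- the prime of an index -/
def pz (n : J → ℕ) (x : PF n) : ℕ := (n x.1).primeFactorsList.get x.2

lemma pz_prime (n : J → ℕ) (x : PF n) : (pz n x).Prime :=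
  Nat.prime_of_mem_primeFactorsList (List.get_mem _ _)

/-- a family of commuting matrix units splits into a family of prime sizes -/
theorem split_sys (h : MUSys n e) : ∃ w : PF n → ℕ → ℕ → E, MUSys (pz n) w ∧
    ∀ j a b, e j a b ∈ Algebra.adjoin ℂ {x | ∃ i a b, x = w i a b} := by
  have hj : ∀ j, ∃ w : Fin (n j).primeFactorsList.length → ℕ → ℕ → E,
      (∀ i, MU ((n j).primeFactorsList.get i) (w i)) ∧
      (∀ i i', i ≠ i' → ∀ a b c d, Commute (w i a b) (w i' c d)) ∧
      (∀ y, (∀ a b, Commute (e j a b) y) → ∀ i a b, Commute (w i a b) y) ∧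
      ∀ a b, e j a b ∈ Algebra.adjoin ℂ {x | ∃ i a b, x = w i a b} := by
    intro j
    have h1 := MU.of_sys h j
    rw [← Nat.prod_primeFactorsList (h.pos j).ne'] at h1
    exact split_list _ (fun p hp => (Nat.prime_of_mem_primeFactorsList hp).pos) _ h1
  choose w h1 h2 h3 h4 using hj
  refine ⟨fun x => w x.1 x.2, ?_, ?_⟩
  · refine ⟨fun x => (h1 x.1 x.2).pos, fun x => (h1 x.1 x.2).zero_left,
      fun x => (h1 x.1 x.2).mul_same, fun x => (h1 x.1 x.2).mul_ne,
      fun x => (h1 x.1 x.2).star_e, fun x => (h1 x.1 x.2).one, ?_⟩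
    rintro ⟨j, i⟩ ⟨j', i'⟩ hne a b c d
    by_cases hjj : j = j'
    · subst hjj
      exact h2 j i i' (fun hh => hne (by rw [hh])) a b c d
    · refine h3 j _ (fun a b => ?_) i a b
      refine (h3 j' _ (fun c d => ?_) i' c d).symm
      exact h.comm j' j (Ne.symm hjj) c d a b
  · intro j a b
    refine Algebra.adjoin_mono ?_ (h4 j a b)
    rintro x ⟨i, a, b, rfl⟩
    exact ⟨⟨j, i⟩, a, b, rfl⟩

end fam

end Pool.Agent.Q193.UHF
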